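import Pool.Agent.helper77.SK.Spec

/-! Row FD of helper77's plan SK (MP_f6e9a2_nt): degree and leading coefficient of the Stepanov
polynomial of Hanson and Petridis. -/

namespace Pool.Agent.SK

open Polynomial Finset

theorem FD_coeff {p : ℕ} [Fact p.Prime] (B : Finset (ZMod p)) (d : ℕ) (ε : ZMod p) (k : ℕ)
    (hk : 1 ≤ k) : (FF B d ε).coeff k =
      ((d + B.card - 1).choose k : ZMod p) * ∑ b ∈ B, cw B b * (-b) ^ (d + B.card - 1 - k) := by
  unfold FF
  rw [coeff_sub, finsetSum_coeff, coeff_C, if_neg (by omega), sub_zero, Finset.mul_sum]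
  refine Finset.sum_congr rfl fun b _ => ?_
  have h : (X - C b : (ZMod p)[X]) = X + C (-b) := by rw [C_neg, sub_eq_add_neg]
  rw [coeff_C_mul, h, coeff_X_add_C_pow]
  ring

theorem FD_sum (hLG : LG_stmt) {p : ℕ} [Fact p.Prime] (B : Finset (ZMod p)) (hB : B.Nonempty)
    (m : ℕ) (hm : m < B.card) :
    ∑ b ∈ B, cw B b * (-b) ^ m = if m = B.card - 1 then 1 else 0 := by
  have hdeg : (C ((-1 : ZMod p) ^ m) * X ^ m).degree < (B.card : WithBot ℕ) :=
    lt_of_le_of_lt (degree_C_mul_X_pow_le m _) (by exact_mod_cast hm)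
  have h := hLG p B (C ((-1 : ZMod p) ^ m) * X ^ m) hB hdeg
  have h1 : ∑ b ∈ B, cw B b * (-b) ^ m =
      ∑ b ∈ B, cw B b * (C ((-1 : ZMod p) ^ m) * X ^ m).eval b := by
    refine Finset.sum_congr rfl fun b _ => ?_
    rw [eval_mul, eval_C, eval_pow, eval_X, ← mul_pow]
    simp
  rw [h1, h, coeff_C_mul, coeff_X_pow]
  by_cases hm1 : m = B.card - 1
  · rw [hm1]
    simp only [if_true, mul_one]
    rw [← mul_pow]
    simp
  · rw [if_neg hm1, if_neg (Ne.symm hm1)]
    simp

theorem FD (hLG : LG_stmt) : FD_stmt := by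
  intro p _ B d ε hB hd
  have hc : 1 ≤ B.card := hB.card_pos
  refine ⟨?_, ?_⟩
  · rw [natDegree_le_iff_coeff_eq_zero]
    intro k hk
    rw [FD_coeff B d ε k (by omega)]
    by_cases hkn : d + B.card - 1 < k
    · rw [Nat.choose_eq_zero_of_lt hkn]
      simp
    · rw [FD_sum hLG B hB (d + B.card - 1 - k) (by omega), if_neg (by omega), mul_zero]
  · rw [FD_coeff B d ε d hd, FD_sum hLG B hB (d + B.card - 1 - d) (by omega),
      if_pos (by omega), mul_one]

end Pool.Agent.SK
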